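import Pool.Agent.H90.UL.Targets

/-!
# At least four periods, small primes divide the period (module FOU of the board ul_modules)
-/

set_option autoImplicit false

namespace Pool.Agent.H94.UL

open Finset Pool.Agent.H90.UL

theorem pf_fou : T_FOU := by
  intro a n q M R h
  have hn := h.pos
  have hM1 := h.one
  have ha2 : 2 ≤ a := h.apr.two_le
  have hqge := h.qge
  have hqc := h.qcard
  have haR : a ∈ R := h.mem a h.apr le_rfl (by omega)
  have hprime : ∀ x ∈ R, x.Prime := fun x hx => by simpa using h.chain x hx 0 (by omega)
  have hall : ∀ t : ℕ, t ≤ M → (a + t * n).Prime := by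
    intro t ht
    rcases Nat.lt_or_ge t M with h1 | h1
    · exact h.chain a haR t h1
    · have : t = M := by omega
      rw [this]
      exact h.last
  have hcardn : R.card ≤ n := by
    have h1 : R ⊆ Ico a (a + n) := fun x hx => by
      rw [mem_Ico]
      exact h.sub x hx
    have h2 := card_le_card h1
    rw [Nat.card_Ico] at h2
    omega
  -- M is not 1
  have hM2 : 2 ≤ M := by
    by_contra hcon
    have h1 : M = 1 := by omega
    rw [h1, one_mul] at hqc
    omega
  have han : (a + n).Prime := by simpa using hall 1 hM1
  have ha2n : (a + 2 * n).Prime := hall 2 hM2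
  -- n is not 1
  have hn2 : 2 ≤ n := by
    by_contra hcon
    have h1 : n = 1 := by omega
    rw [h1] at han ha2n
    rcases h.apr.eq_two_or_odd with h2 | h2
    · rw [h2] at ha2n
      revert ha2n
      norm_num
    · rcases han.eq_two_or_odd with h3 | h3
      · omega
      · omega
  -- a is not 2
  have ha3 : 3 ≤ a := by
    by_contra hcon
    have h1 : a = 2 := by omega
    have h3 : 3 ∈ R := h.mem 3 Nat.prime_three (by omega) (by omega)
    have h4 : (3 + n).Prime := by simpa using h.chain 3 h3 1 hM2
    rw [h1] at han
    rcases han.eq_two_or_odd with h5 | h5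
    · omega
    · rcases h4.eq_two_or_odd with h6 | h6
      · omega
      · omega
  have haodd : a % 2 = 1 := by
    rcases h.apr.eq_two_or_odd with h2 | h2
    · omega
    · exact h2
  have hneven : n % 2 = 0 := by
    rcases han.eq_two_or_odd with h2 | h2
    · omega
    · omega
  -- half
  have hcard2 : R.card ≤ n / 2 := by
    have h1 : R ⊆ (range (n / 2)).image (fun i => a + 2 * i) := by
      intro x hx
      have h2 := h.sub x hx
      have h3 : x % 2 = 1 := by
        rcases (hprime x hx).eq_two_or_odd with h4 | h4
        · omega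
        · exact h4
      rw [mem_image]
      exact ⟨(x - a) / 2, by rw [mem_range]; omega, by omega⟩
    calc R.card ≤ ((range (n / 2)).image (fun i => a + 2 * i)).card := card_le_card h1
      _ ≤ (range (n / 2)).card := card_image_le
      _ = n / 2 := card_range _
  -- M is not 2
  have hM3 : 3 ≤ M := by
    by_contra hcon
    have h1 : M = 2 := by omega
    rw [h1] at hqc
    omega
  have ha3n : (a + 3 * n).Prime := hall 3 hM3
  -- 3 divides n
  have hnot3 : ∀ x : ℕ, x.Prime → 3 < x → x % 3 ≠ 0 := by
    intro x hx h3 h0
    have := (Nat.prime_dvd_prime_iff_eq Nat.prime_three hx).1 (Nat.dvd_of_mod_eq_zero h0)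
    omega
  have hn3 : n % 3 = 0 := by
    have h1 := hnot3 _ han (by omega)
    have h2 := hnot3 _ ha2n (by omega)
    have h3 := hnot3 _ ha3n (by omega)
    rcases (by omega : a % 3 = 0 ∨ a % 3 = 1 ∨ a % 3 = 2) with h4 | h4 | h4 <;>
      rcases (by omega : n % 3 = 0 ∨ n % 3 = 1 ∨ n % 3 = 2) with h5 | h5 | h5 <;> omega
  have hn6 : n % 6 = 0 := by omega
  have ha4 : a % 3 ≠ 0 := by
    have h1 := hnot3 _ han (by omega)
    omega
  have hM4 : 4 ≤ M := by
    by_contra hcon
    have h1 : M = 3 := by omega
    have h2 : R ⊆ (range (n / 6)).image (fun i => a + 6 * i) ∪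
        (range (n / 6)).image (fun i => a + (if a % 6 = 1 then 4 else 2) + 6 * i) := by
      intro x hx
      have h2 := h.sub x hx
      have h3 : x % 2 = 1 := by
        rcases (hprime x hx).eq_two_or_odd with h4 | h4
        · omega
        · exact h4
      have h4 : x % 3 ≠ 0 := hnot3 x (hprime x hx) (by
        rcases Nat.lt_or_ge 3 a with h5 | h5
        · omega
        · exact absurd (by omega : a % 3 = 0) ha4)
      have hx6 : x % 6 = 1 ∨ x % 6 = 5 := by omega
      have ha6 : a % 6 = 1 ∨ a % 6 = 5 := by omega
      have hlt : (x - a) / 6 < n / 6 := by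
        have h5 : x - a < n := by omega
        omega
      rw [mem_union, mem_image, mem_image]
      by_cases h5 : x % 6 = a % 6
      · left
        exact ⟨(x - a) / 6, mem_range.2 hlt, by omega⟩
      · right
        refine ⟨(x - a) / 6, mem_range.2 hlt, ?_⟩
        rcases hx6 with h7 | h7 <;> rcases ha6 with h6 | h6
        · omega
        · rw [if_neg (by omega)]
          omega
        · rw [if_pos h6]
          omega
        · omega
    have h3 : R.card ≤ n / 6 + n / 6 := by
      calc R.card ≤ _ := card_le_card h2
        _ ≤ _ := card_union_le _ _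
        _ ≤ (range (n / 6)).card + (range (n / 6)).card :=
            Nat.add_le_add card_image_le card_image_le
        _ = n / 6 + n / 6 := by rw [card_range]
    rw [h1] at hqc
    omega
  have hMa : M < a := by
    by_contra hcon
    have h1 := hall a (by omega)
    have h2 : a + a * n = a * (1 + n) := by ring
    rw [h2] at h1
    exact Nat.not_prime_mul (by omega) (by omega) h1
  refine ⟨hM4, hMa, ?_⟩
  intro p hp hpM
  by_contra hpn
  have : Fact p.Prime := ⟨hp⟩
  have hn0 : (n : ZMod p) ≠ 0 := fun h0 => hpn ((ZMod.natCast_eq_zero_iff n p).1 h0)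
  have key : ∃ t : ℕ, 1 ≤ t ∧ t ≤ p ∧ p ∣ a + t * n := by
    set s : ZMod p := -(a : ZMod p) / (n : ZMod p) with hs
    have h1 : (a : ZMod p) + s * n = 0 := by
      rw [hs]
      field_simp
      ring
    rcases Nat.eq_zero_or_pos s.val with h0 | h0
    · refine ⟨p, hp.one_le, le_refl _, ?_⟩
      rw [← ZMod.natCast_eq_zero_iff]
      have h2 : s = 0 := (ZMod.val_eq_zero s).1 h0
      rw [h2] at h1
      push_cast
      rw [ZMod.natCast_self]
      exact h1
    · refine ⟨s.val, h0, (ZMod.val_lt s).le, ?_⟩
      rw [← ZMod.natCast_eq_zero_iff]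
      push_cast
      rw [ZMod.natCast_val, ZMod.cast_id]
      exact h1
  obtain ⟨t, ht1, htp, hdvd⟩ := key
  have h1 := hall t (by omega)
  have h2 := (Nat.prime_dvd_prime_iff_eq hp h1).1 hdvd
  omega

end Pool.Agent.H94.UL
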