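import Pool.Agent.H90.UL.Targets

/-!
# The structure of a translated block (module PRE of the board ul_modules)
-/

set_option autoImplicit false

namespace Pool.Agent.H94.UL

open Finset Pool.Agent.H90.UL

theorem pf_pre : T_PRE := by
  intro a y n q ha hn hq hper hcov
  have hq1 : 1 < q := hq.one_lt
  -- (1)
  have h1 : a ≤ q ∧ q ≤ y := by
    obtain ⟨x, hx, hax, hxy, hxq⟩ := hcov 0 hq.pos
    have : q ∣ x := Nat.dvd_of_mod_eq_zero hxq
    have h2 := (Nat.prime_dvd_prime_iff_eq hq hx).1 this
    subst h2
    exact ⟨hax, hxy⟩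
  have hay : a ≤ y := h1.1.trans h1.2
  -- (2)
  have h2 : a + n ≤ q := by
    have hc : (q - n % q) % q < q := Nat.mod_lt _ hq.pos
    obtain ⟨x, hx, hax, hxy, hxq⟩ := hcov _ hc
    have hnq : n % q < q := Nat.mod_lt _ hq.pos
    have h3 : (x + n) % q = 0 := by
      rw [Nat.add_mod, hxq]
      have h4 : (q - n % q) % q + n % q = q ∨ (q - n % q) % q + n % q = 0 := by
        rcases Nat.eq_zero_or_pos (n % q) with h0 | h0
        · rw [h0]
          right
          simp
        · left
          rw [Nat.mod_eq_of_lt (by omega)]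
          omega
      rcases h4 with h4 | h4
      · rw [h4, Nat.mod_self]
      · rw [h4, Nat.zero_mod]
    have h5 : (x + n).Prime := (hper x hax hxy).1 hx
    have h6 := (Nat.prime_dvd_prime_iff_eq hq h5).1 (Nat.dvd_of_mod_eq_zero h3)
    omega
  obtain ⟨K, hK⟩ : ∃ K : ℕ, K = (y - a) / n := ⟨_, rfl⟩
  set M := K + 1 with hM
  set R := (Ico a (a + n)).filter Nat.Prime with hR
  have hmul : K * n ≤ y - a := by
    rw [hK]
    exact Nat.div_mul_le_self _ _
  -- (3)
  have hchain : ∀ x ∈ R, ∀ t : ℕ, t < M → (x + t * n).Prime := by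
    intro x hx t
    rw [hR, mem_filter, mem_Ico] at hx
    induction t with
    | zero =>
      intro _
      simpa using hx.2
    | succ t ih =>
      intro ht
      have h3 := ih (by omega)
      have ht' : t + 1 ≤ K := by omega
      have h4 : (t + 1) * n ≤ K * n := Nat.mul_le_mul_right _ ht'
      have h5 : (t + 1) * n = t * n + n := by ring
      have h6 : x + t * n ≤ y := by omega
      have h7 := (hper (x + t * n) (by omega) h6).1 h3
      rw [h5, ← add_assoc]
      exact h7
  have haR : a ∈ R := by
    rw [hR, mem_filter, mem_Ico]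
    exact ⟨⟨le_refl _, by omega⟩, ha⟩
  have hlast : (a + M * n).Prime := by
    have h3 := hchain a haR (M - 1) (by omega)
    have h4 : M - 1 = K := by omega
    rw [h4] at h3
    have h5 := (hper (a + K * n) (by omega) (by omega)).1 h3
    have h6 : a + M * n = a + K * n + n := by
      rw [hM]
      ring
    rw [h6]
    exact h5
  -- (4)
  have hback : ∀ t x0 : ℕ, a ≤ x0 → x0 + t * n ≤ y → (x0 + t * n).Prime → x0.Prime := by
    intro t
    induction t with
    | zero =>
      intro x0 _ _ h
      simpa using h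
    | succ t ih =>
      intro x0 h3 h4 h5
      have h6 : x0 + (t + 1) * n = x0 + t * n + n := by ring
      rw [h6] at h4 h5
      exact ih x0 h3 (by omega) ((hper (x0 + t * n) (by omega) (by omega)).2 h5)
  set B := (Icc a y).filter Nat.Prime with hB
  have hB1 : q ≤ B.card := by
    have h3 : range q ⊆ B.image (fun x => x % q) := by
      intro c hc
      rw [mem_range] at hc
      obtain ⟨x, hx, hax, hxy, hxq⟩ := hcov c hc
      rw [mem_image]
      exact ⟨x, by rw [hB, mem_filter, mem_Icc]; exact ⟨⟨hax, hxy⟩, hx⟩, hxq⟩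
    calc q = (range q).card := (card_range q).symm
      _ ≤ (B.image (fun x => x % q)).card := card_le_card h3
      _ ≤ B.card := card_image_le
  have hB2 : B ⊆ (R ×ˢ range M).image (fun z => z.1 + z.2 * n) := by
    intro x hx
    rw [hB, mem_filter, mem_Icc] at hx
    rw [mem_image]
    have h3 : (x - a) / n * n + (x - a) % n = x - a := Nat.div_add_mod' _ _
    have h4 : a + (x - a) % n + (x - a) / n * n = x := by omega
    have h5 : (x - a) % n < n := Nat.mod_lt _ hn
    refine ⟨(a + (x - a) % n, (x - a) / n), ?_, h4⟩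
    rw [mem_product, mem_range, hR, mem_filter, mem_Ico]
    refine ⟨⟨⟨by simp, by simpa using h5⟩, ?_⟩, ?_⟩
    · exact hback ((x - a) / n) _ (by omega) (by rw [h4]; exact hx.1.2) (by rw [h4]; exact hx.2)
    · have h6 : (x - a) / n ≤ K := by
        rw [hK]
        exact Nat.div_le_div_right (by omega)
      exact Nat.lt_succ_of_le h6
  have hqc : q ≤ M * R.card := by
    calc q ≤ B.card := hB1
      _ ≤ ((R ×ˢ range M).image (fun z => z.1 + z.2 * n)).card := card_le_card hB2
      _ ≤ (R ×ˢ range M).card := card_image_le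
      _ = M * R.card := by rw [card_product, card_range, mul_comm]
  refine ⟨M, R, ha, hn, by omega, h2, hqc, ?_, ?_, hchain, hlast⟩
  · intro x hx
    rw [hR, mem_filter, mem_Ico] at hx
    exact hx.1
  · intro x hx h3 h4
    rw [hR, mem_filter, mem_Ico]
    exact ⟨⟨h3, h4⟩, hx⟩

end Pool.Agent.H94.UL
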